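import Pool.Agent.Helper94_CTD.Public
import Pool.Agent.Helper94_CTD.D10
import Pool.Agent.Helper94_CTD.D17
import Pool.Agent.Helper94_CTD.E0
import Pool.Agent.Helper94_CTD.E2
import Pool.Agent.Helper94_CTD.E13
import Pool.Agent.Helper9_CTD.A
import Pool.Agent.Helper9_CTD.D
import Pool.Agent.Helper3_CTD.C3
import Pool.Agent.Helper3_CTD.C4
import Pool.Agent.Helper3_CTD.C7
import Pool.Agent.Helper3_CTD.C8
import Pool.Agent.Helper91_CTD.D1
import Pool.Agent.Helper91_CTD.D12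
import Pool.Agent.Helper91_CTD.D13
import Pool.Agent.Helper92_CTD.D15
import Pool.Agent.Helper92_CTD.D16
import Pool.Agent.Helper24_CTD.D11
import Pool.Agent.Helper24_CTD.D4
import Pool.Agent.Helper24_CTD.D9
import Pool.Agent.Helper72_CTD.E1
import Pool.Agent.Helper72_CTD.E3
import Pool.Agent.Helper61_CTD.E4
import Pool.Agent.Helper61_CTD.E7
import Pool.Agent.Helper61_CTD.E8
import Pool.Agent.Helper50_CTD.E10
import Pool.Agent.Helper50_CTD.E11
import Pool.Agent.Helper50_CTD.E12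

/-!
# A consistent counterexample: tightness and density at most `ℵ₁`, cardinality greater than
`2 ^ ℵ₁`
-/

open Pool.Agent.FL Pool.Agent.CTD

namespace Pool.Agent.Results.MP_d57a43_lc.ConsistentCounterexample

theorem c8 : C8Ex := H3.c8
theorem c7 : C7Or := H3.c7
theorem c3 : C3Cl := H3.c3 c8
theorem c4 : C4Dr := H3.c4 c8
theorem c5 : C5Pa := H3.c5 c8
theorem c6 : C6Dn := H3.c6 c3
theorem c2 : C2De := H3.c2 c7
theorem a1 : A1Pt := H9.a1
theorem a2 : A2Bd := H9.a2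
theorem a3 : A3Ix := H9.a3
theorem a4 : A4Sm := H9.a4
theorem d1 : D1Va := H91.d1
theorem d2 : D2Cv := H91.d2 c2
theorem d5 : D5An := H9.d5 a1 a2 a3 a4
theorem d6 : D6Su := H9.d6 d5 a3 a4
theorem d7 : D7Go := H9.d7 d6 a2 a3 a4
theorem d8 : D8Cp := H9.d8 a1 a2 a3 a4 d6 d7
theorem d9 : D9Uf := H24.d9
theorem d10 : D10Co := H94.d10 c3 c4 c5 c7 c8 H3.c10 d2 d7 d9 d1
theorem d17 : D17Sy := H94.d17 (H24.d11 a3 d2 d8 d10) (H91.d12 a3 c6) H91.d13 H91.d14
  (H92.d15 d5 a3 a4) (H92.d16 a2 a3 d7)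
theorem e1 : E1Nm := H72.e1
theorem e3 : E3De := H72.e3
theorem e4 : E4Fn := H61.e4 e1 e3
theorem e5 : E5In := H61.e5 e4
theorem e6 : E6No := H61.e6 e3
theorem e7 : E7Xb := H61.e7 e1
theorem e8 : E8Al := H61.e8 e5 e6 e1
theorem e9 : E9Cl := H61.e9 e3 e7

/-- There is a model of ZFC with standard natural numbers which contains a closed subspace `X` of
the Cantor cube `2 ^ ω₂` (of the model) such that in the model `X` has a dense subset of cardinality
at most `ℵ₁`, no free sequence of length `ω₂`, and cardinality greater than `2 ^ ℵ₁`. -/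
theorem result : ∃ (M : Type) (E : M → M → Prop), IsZFC E ∧ OmegaStd E ∧
    ∃ w1 w2 X : M, IsExample E w1 w2 X :=
  H94.e13 d17 H94.e0 (H94.e2 e1) e8 e9 (H50.e10 e1 e3 e5 e7) (H50.e11 e1 e3 e7) (H50.e12 e1 e3 e7)

end Pool.Agent.Results.MP_d57a43_lc.ConsistentCounterexample
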